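import Pool.Agent.H68.L.R_seed8.Z700.Defs
import Pool.Agent.H68.L.R_seed8.Y700.Defs2
import Pool.Agent.H68.L.R_seed8.TH841.SH.ShaDef
import Pool.Agent.H68.L.R_seed8.Y668.AlAdd
import Pool.Agent.H68.L.R_seed8.Y700.VC

/-!
# The converse: a singular matrix gives infinitely many points or a nontrivial element of `Ш[2]`

Third stage of the project Z700. `WZ a b : y² = x³ + a x² + b x` with the point `T = (0, 0)` of order
two, `E' : y² = x³ - 2 a x² + (a² - 4 b) x` the isogenous curve. For an integer `d` the cocycle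
`c_d = χ_d T`, `χ_d(σ) = 1` iff `σ √d ≠ √d`, is trivial over `K` if there is a point `(X, Y) ∈ E'(K)`
with `X ∈ d K*²`.
-/

set_option autoImplicit false

namespace Pool.Agent.Z702

open WeierstrassCurve Finset

open Pool.Agent.TH841.SH.D

open Pool.Agent.Z700 (Yd)

open Pool.Agent.Y700 (Rt VR)

/-- the curve `y² = x³ + a x² + b x` -/
abbrev WZ (a b : ℤ) : WeierstrassCurve ℚ := Pool.Agent.Y668.Wt ((a : ℤ) : ℚ) ((b : ℤ) : ℚ)

/-- a point `(X, Y)` of `y² = x³ - 2 a x² + (a² - 4 b) x` over `K` with `X ∈ d K*²` -/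
def LocI (K : Type) [Field K] (a b d : ℤ) : Prop :=
  ∃ X Y r : K, X ≠ 0 ∧ Y ^ 2 = X ^ 3 - 2 * (a : K) * X ^ 2 + ((a : K) ^ 2 - 4 * (b : K)) * X ∧
    X = (d : K) * r ^ 2

lemma ns0 {a b : ℤ} (hb : b ≠ 0) (L : Type) [Field L] [Algebra ℚ L] :
    ((WZ a b).baseChange L).toAffine.Nonsingular 0 0 := by
  rw [Affine.nonsingular_zero]
  refine ⟨?_, Or.inr ?_⟩
  · exact map_zero (algebraMap ℚ L)
  · intro h0
    have h1 : ((b : ℤ) : ℚ) ≠ 0 := by exact_mod_cast hb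
    exact h1 ((algebraMap ℚ L).injective (by rw [map_zero]; exact h0))

/-- the point `(0, 0)` -/
def T0 {a b : ℤ} (hb : b ≠ 0) (L : Type) [Field L] [Algebra ℚ L] : Pt (WZ a b) L :=
  Affine.Point.some 0 0 (ns0 hb L)

open Classical in
/-- the cocycle `χ_d T` -/
noncomputable def coc {a b : ℤ} (hb : b ≠ 0) (d : ℤ) : Coch (WZ a b) := fun σ =>
  if ∃ s : AlgebraicClosure ℚ, s ^ 2 = (d : AlgebraicClosure ℚ) ∧ σ s ≠ s then
    T0 hb (AlgebraicClosure ℚ) else 0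

/-- COC: `χ_d T` is a continuous cocycle killed by two -/
def S_COC : Prop := ∀ (a b : ℤ) (hb : b ≠ 0) (d : ℤ),
  IsCoc (WZ a b) (coc hb d) ∧ coc (a := a) hb d + coc hb d = 0

/-- LOT: local triviality -/
def S_LOT : Prop := ∀ (a b : ℤ) (hb : b ≠ 0) (d : ℤ), a ^ 2 - 4 * b ≠ 0 → d ≠ 0 →
  ∀ (K : Type) [Field K] [Algebra ℚ K], LocI K a b d → LocTriv (WZ a b) K (coc hb d)

/-- COB: if `χ_d T` is a coboundary then `d` comes from a rational point of the isogenous curve -/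
def S_COB : Prop := ∀ (a b : ℤ) (hb : b ≠ 0) (d : ℤ), a ^ 2 - 4 * b ≠ 0 → d ≠ 0 →
  IsCob (WZ a b) (coc hb d) →
    IsSquare (d : ℚ) ∨ IsSquare ((d : ℚ) * ((a : ℚ) ^ 2 - 4 * b)) ∨ LocI ℚ a b d

/-- TOR: if there are finitely many rational points, then the classes of the rational points of the
isogenous curve are those of `O` and `(0, 0)` -/
def S_TOR : Prop := ∀ (a b : ℤ) (d : ℤ), b ≠ 0 → a ^ 2 - 4 * b ≠ 0 → ¬ IsSquare (b : ℚ) →
  ¬ IsSquare ((a : ℚ) ^ 2 - 4 * b) → Finite (WZ a b).toAffine.Point → LocI ℚ a b d →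
  IsSquare (d : ℚ) ∨ IsSquare ((d : ℚ) * ((a : ℚ) ^ 2 - 4 * b))

/-- TRN: finiteness and `Ш[2] = 0` do not depend on the equation -/
def S_TRN : Prop := ∀ (W W' : WeierstrassCurve ℚ) (u r s t : ℚ), VR W W' u r s t → W'.Δ ≠ 0 →
  (Finite W.toAffine.Point ↔ Finite W'.toAffine.Point) ∧
  ((∀ x : Sha W, x + x = 0 → x = 0) ↔ ∀ x : Sha W', x + x = 0 → x = 0) ∧
  Nat.card (AddCommGroup.torsion W.toAffine.Point) =
    Nat.card (AddCommGroup.torsion W'.toAffine.Point)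

/-- TORS: the order of the torsion group is twice an odd number -/
def S_TORS : Prop := ∀ (a b : ℤ), b ≠ 0 → a ^ 2 - 4 * b ≠ 0 → ¬ IsSquare (b : ℚ) →
  ¬ IsSquare ((a : ℚ) ^ 2 - 4 * b) →
  ∃ k : ℕ, Odd k ∧ Nat.card (AddCommGroup.torsion (WZ a b).toAffine.Point) = 2 * k

/-! ### local solubility -/

/-- LQ: squares and squares times the class of `(0, 0)` -/
def S_LQ : Prop := ∀ (a b d : ℤ), b ≠ 0 → a ^ 2 - 4 * b ≠ 0 → d ≠ 0 →
  (∀ (p : ℕ) [Fact p.Prime], (IsSquare (d : ℚ_[p]) ∨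
    IsSquare ((d : ℚ_[p]) * ((a : ℚ_[p]) ^ 2 - 4 * b))) → LocI ℚ_[p] a b d) ∧
  (0 < d → LocI ℝ a b d)

/-- LG: the primes of good reduction -/
def S_LG : Prop := ∀ (p : ℕ) [Fact p.Prime] (M d : ℤ), p ≠ 2 → p ≠ 7 → ¬ (p : ℤ) ∣ M →
  ¬ (p : ℤ) ∣ d → LocI ℚ_[p] (13 * M) (128 * M ^ 2) d

/-- LP: the split primes which divide `d` -/
def S_LP : Prop := ∀ (p : ℕ) [Fact p.Prime], p % 8 = 1 → IsSquare (-7 : ZMod p) →
  ∀ (m : ℕ) (M' d' : ℤ), ¬ p ∣ m → ¬ (p : ℤ) ∣ M' → ¬ (p : ℤ) ∣ d' →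
  (IsSquare ((M' * d' * m : ℤ) : ZMod p) ↔ ¬ Rt p m) →
  LocI ℚ_[p] (13 * (p * M')) (128 * (p * M') ^ 2) (p * d')

/-- LIN: a singular matrix modulo two has a kernel vector -/
def S_LIN : Prop := ∀ (l : ℕ → ℕ → ℤ) (x : ℕ → ℤ) (P : Finset ℕ), ¬ Odd (Yd l x P) →
  ∃ J ⊆ P, J.Nonempty ∧ (∀ p ∈ P \ J, Even (∑ q ∈ J, l p q)) ∧
    ∀ p ∈ J, Even (∑ q ∈ P \ J, l p q + x p)

end Pool.Agent.Z702
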